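import Pool.Agent.helper62.K3.Defs

/-!
Module hk:VB: equivariant retraction onto a finite set away from a finite set.
-/

noncomputable section

namespace Pool.Agent.helper62.K3

section
variable {X G : Type} [MetricSpace X] [CompactSpace X] [Group G] [Finite G] [MulAction G X]

theorem VB_free (iso : ∀ g : G, Isometry (fun x : X => g • x)) (F : Set X)
    (hfree : ∀ x, x ∉ F → ∀ g : G, g • x = x → g = 1) (ρ : ℝ) (hρ : 0 < ρ) :
    ∃ θ > 0, ∀ x : X, (∀ p ∈ F, ρ ≤ dist x p) → ∀ g : G, g ≠ 1 → θ ≤ dist (g • x) x := by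
  have hK : IsCompact {x : X | ∀ p ∈ F, ρ ≤ dist x p} := by
    apply IsClosed.isCompact
    have : {x : X | ∀ p ∈ F, ρ ≤ dist x p} = ⋂ p ∈ F, {x : X | ρ ≤ dist x p} := by
      ext x; simp
    rw [this]
    exact isClosed_biInter fun p _ => isClosed_le continuous_const
      (continuous_id.dist continuous_const)
  have h1 : ∀ g : G, ∃ θ > 0, g ≠ 1 → ∀ x : X, (∀ p ∈ F, ρ ≤ dist x p) → θ ≤ dist (g • x) x := by
    intro g
    by_cases hg : g = 1
    · exact ⟨1, one_pos, fun h => absurd hg h⟩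
    rcases Set.eq_empty_or_nonempty {x : X | ∀ p ∈ F, ρ ≤ dist x p} with he | hne
    · refine ⟨1, one_pos, fun _ x hx => ?_⟩
      have : x ∈ {x : X | ∀ p ∈ F, ρ ≤ dist x p} := hx
      rw [he] at this
      exact absurd this (Set.notMem_empty _)
    · obtain ⟨x0, hx0, hmin⟩ := hK.exists_isMinOn hne
        (f := fun x : X => dist (g • x) x)
        (((iso g).continuous.dist continuous_id).continuousOn)
      refine ⟨dist (g • x0) x0, ?_, fun _ x hx => hmin hx⟩
      rw [gt_iff_lt, dist_pos]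
      intro heq
      have hF : x0 ∉ F := by
        intro hF
        have := hx0 x0 hF
        rw [dist_self] at this
        linarith
      exact hg (hfree x0 hF g heq)
  choose θ hθ hθ' using h1
  obtain ⟨m, hm⟩ : ∃ m > 0, ∀ g : G, m ≤ θ g := by
    haveI := Fintype.ofFinite G
    refine ⟨Finset.univ.inf' ⟨1, Finset.mem_univ 1⟩ θ, ?_, fun g => Finset.inf'_le _ (Finset.mem_univ g)⟩
    rw [gt_iff_lt, Finset.lt_inf'_iff]
    exact fun g _ => hθ g
  exact ⟨m, hm.1, fun x hx g hg => (hm.2 g).trans (hθ' g hg x hx)⟩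

open scoped Classical in
/-- hk:VB equivariant retraction onto a finite set away from `F` -/
theorem VB (iso : ∀ g : G, Isometry (fun x : X => g • x)) (F : Set X) (hF : F.Finite)
    (hinv : ∀ g : G, ∀ x ∈ F, g • x ∈ F)
    (hfree : ∀ x, x ∉ F → ∀ g : G, g • x = x → g = 1) (D : ℕ) (grid : Grid G X D)
    (ρ : ℝ) (hρ : 0 < ρ) :
    ∃ r : X → X, (∀ (g : G) (x : X), r (g • x) = g • r x) ∧ (∀ x, dist (r x) x < ρ) ∧
      ∃ δ > 0, ∀ σ : Finset X, Small δ σ → ¬ Near F ρ σ → (σ.image r).card ≤ D := by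
  obtain ⟨θ, hθ, hfar⟩ := VB_free iso F hfree (ρ / 2) (half_pos hρ)
  obtain ⟨Q, inst, c, hc, hfine, δ, hδ, hcard⟩ := grid (min (ρ / 2) θ) (lt_min (half_pos hρ) hθ)
  -- the far part of the partition
  set Q' : Set Q := {q | ∃ x, c x = q ∧ ∀ p ∈ F, ρ / 2 ≤ dist x p} with hQ'
  have hfarG : ∀ (g : G) (x : X), (∀ p ∈ F, ρ / 2 ≤ dist x p) → ∀ p ∈ F, ρ / 2 ≤ dist (g • x) p := by
    intro g x hx p hp
    have h1 := hx (g⁻¹ • p) (hinv g⁻¹ p hp)
    have h2 := (iso g).dist_eq x (g⁻¹ • p)
    simp only [smul_inv_smul] at h2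
    rw [h2]
    exact h1
  have hQinv : ∀ (g : G) (q : Q), q ∈ Q' → g • q ∈ Q' := by
    rintro g q ⟨x, hx, hxF⟩
    exact ⟨g • x, by rw [hc, hx], hfarG g x hxF⟩
  have hQfree : ∀ (g : G) (q : Q), q ∈ Q' → g • q = q → g = 1 := by
    rintro g q ⟨x, hx, hxF⟩ hgq
    by_contra hg
    have h1 := hfar x hxF g hg
    have h2 : dist (g • x) x < min (ρ / 2) θ := hfine _ _ (by rw [hc, hx, hgq])
    exact absurd (h2.trans_le (min_le_right _ _)) (not_lt.2 h1)
  -- orbit representatives
  set π : Q → Q := fun q => (Quotient.mk (MulAction.orbitRel G Q) q).out with hπ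
  have hγ : ∀ q, ∃ g : G, g • π q = q := by
    intro q
    have h1 : (MulAction.orbitRel G Q) (π q) q := Quotient.mk_out (s := MulAction.orbitRel G Q) q
    have h2 : π q ∈ MulAction.orbit G q := MulAction.orbitRel_apply.1 h1
    obtain ⟨g, hg⟩ := h2
    refine ⟨g⁻¹, ?_⟩
    have h3 : g • q = π q := hg
    rw [← h3, inv_smul_smul]
  choose γ hγ using hγ
  have hπinv : ∀ (g : G) (q : Q), π (g • q) = π q := by
    intro g q
    have : (Quotient.mk (MulAction.orbitRel G Q) (g • q)) = Quotient.mk (MulAction.orbitRel G Q) q :=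
      Quotient.sound (MulAction.orbitRel_apply.2 ⟨g, rfl⟩)
    simp only [hπ, this]
  have hπQ : ∀ q ∈ Q', π q ∈ Q' := by
    intro q hq
    have h1 := hQinv (γ q)⁻¹ q hq
    have h2 : (γ q)⁻¹ • q = π q := by
      rw [inv_smul_eq_iff]; exact (hγ q).symm
    rwa [h2] at h1
  rcases isEmpty_or_nonempty X with hX | hX
  · refine ⟨id, fun g x => rfl, fun x => (hX.false x).elim, 1, one_pos, fun σ _ hn => ?_⟩
    exact absurd (fun x _ => (hX.false x).elim) hn
  have hξ : ∀ q, ∃ x : X, q ∈ Q' → c x = q := by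
    intro q
    by_cases hq : q ∈ Q'
    · obtain ⟨x, hx, _⟩ := hq
      exact ⟨x, fun _ => hx⟩
    · exact ⟨Classical.arbitrary X, fun h => absurd h hq⟩
  choose ξ hξ using hξ
  set P : Q → X := fun q => γ q • ξ (π q) with hP
  have hPc : ∀ q ∈ Q', c (P q) = q := by
    intro q hq
    simp only [hP]
    rw [hc, hξ (π q) (hπQ q hq)]
    exact hγ q
  have hPe : ∀ (g : G) (q : Q), q ∈ Q' → P (g • q) = g • P q := by
    intro g q hq
    have h1 : γ (g • q) = g * γ q := by
      have h2 : γ (g • q) • π q = g • q := by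
        have := hγ (g • q)
        rwa [hπinv] at this
      have h3 : ((g * γ q)⁻¹ * γ (g • q)) • π q = π q := by
        rw [mul_smul, h2, mul_inv_rev, mul_smul, inv_smul_smul, inv_smul_eq_iff]
        exact (hγ q).symm
      have h4 := hQfree _ _ (hπQ q hq) h3
      rw [inv_mul_eq_one] at h4
      exact h4.symm
    simp only [hP]
    rw [h1, hπinv, mul_smul]
  refine ⟨fun x => if c x ∈ Q' then P (c x) else x, ?_, ?_, min δ (ρ / 2),
    lt_min hδ (half_pos hρ), ?_⟩
  · intro g x
    by_cases hx : c x ∈ Q'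
    · have hgx : c (g • x) ∈ Q' := by rw [hc]; exact hQinv g _ hx
      simp only [hx, hgx, if_true]
      rw [hc, hPe g _ hx]
    · have hgx : c (g • x) ∉ Q' := by
        intro h
        have h1 := hQinv g⁻¹ _ h
        rw [hc, inv_smul_smul] at h1
        exact hx h1
      simp only [hx, hgx, if_false]
  · intro x
    by_cases hx : c x ∈ Q'
    · simp only [hx, if_true]
      have h1 := hfine (P (c x)) x (hPc _ hx)
      exact h1.trans_le ((min_le_left _ _).trans (by linarith))
    · simp only [hx, if_false, dist_self]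
      exact hρ
  · intro σ hσ hn
    have hn' : ∃ x0 ∈ σ, ∀ p ∈ F, ρ ≤ dist x0 p := by
      by_contra h
      push Not at h
      exact hn fun x hx => by
        obtain ⟨p, hp, hlt⟩ := h x hx
        exact ⟨p, hp, hlt⟩
    obtain ⟨x0, hx0, hx0F⟩ := hn'
    have hall : ∀ y ∈ σ, c y ∈ Q' := by
      intro y hy
      refine ⟨y, rfl, fun p hp => ?_⟩
      have h1 := hx0F p hp
      have h2 := (hσ x0 hx0 y hy).trans_le (min_le_right _ _)
      have h3 := dist_triangle x0 y p
      linarith
    have himg : σ.image (fun x => if c x ∈ Q' then P (c x) else x) = (σ.image c).image P := by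
      rw [Finset.image_image]
      refine Finset.image_congr fun y hy => ?_
      have := hall y hy
      simp only [this, if_true, Function.comp]
    rw [himg]
    refine Finset.card_image_le.trans (hcard σ fun x hx y hy => ?_)
    exact (hσ x hx y hy).trans_le (min_le_left _ _)

end

end Pool.Agent.helper62.K3
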