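import Pool.Agent.helper62.K3.Defs

/-!
Module hk:FD: finite cohomology.
-/

noncomputable section

namespace Pool.Agent.helper62.K3

/-- hk:FD finite cohomology -/
theorem FD {X : Type} [MetricSpace X] (n : ℕ)
    (h : FinPair (Set.univ : Set X) Set.univ n) : Module.Finite (ZMod 2) (HX X n) := by
  obtain ⟨m, l, hl⟩ := h
  set C := Cyc (dd (X := X)) (Zg Set.univ) (Vrel ∅) n with hC
  set B := (Bdy (dd (X := X)) (Zg Set.univ) (Vrel ∅) n).submoduleOf C with hB
  have hle : LinearMap.ker (l.comp C.subtype) ≤ B := by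
    intro f hf
    have h1 : (f : Finset X → ZMod 2) ∈ Bdy (dd (X := X)) (Zg Set.univ) (Vrel ∅) n := by
      have hfC : (f : Finset X → ZMod 2) ∈ Vrel (∅ : Set X) ∧
          dd (f : Finset X → ZMod 2) ∈ Zg (Set.univ : Set X) (n + 1) := f.2
      exact hl f hfC.1 hfC.2 (by simpa [LinearMap.mem_ker] using hf)
    exact h1
  have hfin : Module.Finite (ZMod 2) (C ⧸ LinearMap.ker (l.comp C.subtype)) := by
    have e := (l.comp C.subtype).quotKerEquivRange
    exact Module.Finite.equiv e.symm
  have hsurj : Function.Surjective (Submodule.factor hle) := Submodule.factor_surjective hle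
  exact Module.Finite.of_surjective _ hsurj

end Pool.Agent.helper62.K3
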