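import Pool.Agent.helper62.K3.Defs

/-!
Module hk:LM: local contractibility of manifolds.
-/

noncomputable section

namespace Pool.Agent.helper62.K3

theorem LM_aux {E Y : Type} [NormedAddCommGroup E] [NormedSpace ℝ E] [MetricSpace Y]
    (ψ : OpenPartialHomeomorph Y E) (y : Y) (hy : y ∈ ψ.source) (ε : ℝ) (hε : 0 < ε) :
    ∃ η > 0, ∃ Φ : ℝ → Y → Y,
    ContinuousOn (fun q : ℝ × Y => Φ q.1 q.2) (Set.Icc 0 1 ×ˢ Metric.closedBall y η) ∧
    (∀ z ∈ Metric.closedBall y η, Φ 0 z = z) ∧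
    (∃ c, ∀ z ∈ Metric.closedBall y η, Φ 1 z = c) ∧
    ∀ t ∈ Set.Icc (0 : ℝ) 1, ∀ z ∈ Metric.closedBall y η, Φ t z ∈ Metric.closedBall y ε := by
  have hv : ψ y ∈ ψ.target := ψ.map_source hy
  -- radius in the chart
  obtain ⟨R, hR, hRsub⟩ : ∃ R > 0, Metric.ball (ψ y) R ⊆
      ψ.target ∩ ψ.symm ⁻¹' (Metric.ball y ε) := by
    have h1 : ψ.target ∩ ψ.symm ⁻¹' (Metric.ball y ε) ∈ nhds (ψ y) := by
      refine Filter.inter_mem (ψ.open_target.mem_nhds hv) ?_
      refine (ψ.continuousAt_symm hv).preimage_mem_nhds ?_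
      rw [ψ.left_inv hy]
      exact Metric.ball_mem_nhds y hε
    exact Metric.mem_nhds_iff.1 h1
  obtain ⟨η, hη, hηsub⟩ : ∃ η > 0, Metric.closedBall y η ⊆
      ψ.source ∩ ψ ⁻¹' (Metric.ball (ψ y) R) := by
    have h1 : ψ.source ∩ ψ ⁻¹' (Metric.ball (ψ y) R) ∈ nhds y := by
      refine Filter.inter_mem (ψ.open_source.mem_nhds hy) ?_
      exact (ψ.continuousAt hy).preimage_mem_nhds (Metric.ball_mem_nhds _ hR)
    exact Metric.nhds_basis_closedBall.mem_iff.1 h1
  have key : ∀ t ∈ Set.Icc (0 : ℝ) 1, ∀ z ∈ Metric.closedBall y η,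
      ψ y + (1 - t) • (ψ z - ψ y) ∈ Metric.ball (ψ y) R := by
    intro t ht z hz
    have h2 := (hηsub hz).2
    rw [Set.mem_preimage, Metric.mem_ball, dist_eq_norm] at h2
    rw [Metric.mem_ball, dist_eq_norm, add_sub_cancel_left, norm_smul, Real.norm_eq_abs,
      abs_of_nonneg (by linarith [ht.2])]
    calc (1 - t) * ‖ψ z - ψ y‖ ≤ 1 * ‖ψ z - ψ y‖ :=
          mul_le_mul_of_nonneg_right (by linarith [ht.1]) (norm_nonneg _)
      _ < R := by rw [one_mul]; exact h2
  refine ⟨η, hη, fun t z => ψ.symm (ψ y + (1 - t) • (ψ z - ψ y)), ?_, ?_, ?_, ?_⟩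
  · have h3 : ContinuousOn (fun q : ℝ × Y => ψ y + (1 - q.1) • (ψ q.2 - ψ y))
        (Set.Icc 0 1 ×ˢ Metric.closedBall y η) := by
      refine continuousOn_const.add (ContinuousOn.smul ?_ (ContinuousOn.sub ?_ continuousOn_const))
      · exact (continuous_const.sub continuous_fst).continuousOn
      · exact ψ.continuousOn.comp continuous_snd.continuousOn (fun q hq => (hηsub hq.2).1)
    exact ψ.continuousOn_symm.comp h3 (fun q hq => (hRsub (key q.1 hq.1 q.2 hq.2)).1)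
  · intro z hz
    simp only [sub_zero, one_smul, add_sub_cancel]
    exact ψ.left_inv (hηsub hz).1
  · exact ⟨ψ.symm (ψ y), fun z hz => by simp⟩
  · intro t ht z hz
    exact Metric.ball_subset_closedBall (hRsub (key t ht z hz)).2

/-- hk:LM local contractibility of manifolds -/
theorem LM {E S Y : Type} [NormedAddCommGroup E] [NormedSpace ℝ E] [TopologicalSpace S]
    [ChartedSpace E S] [MetricSpace Y] (φ : S ≃ₜ Y) : LC Y := by
  intro y ε hε
  have hs : y ∈ (φ.symm.toOpenPartialHomeomorph.trans (chartAt E (φ.symm y))).source := by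
    simp
  exact LM_aux _ y hs ε hε

end Pool.Agent.helper62.K3
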